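import Mathlib
import Pool.Agent.Helper549.Tri.Setup
import Pool.Agent.V11171.TilY

/-!
# The side of an equilateral triangle tiled by a triangle with an angle of 120 degrees

Let `a`, `b`, `c` be positive integers with `gcd (a, b) = 1` and `c ^ 2 = a ^ 2 + b ^ 2 + a b`.
If the equilateral triangle of side `X` tiles into triangles with sides `a`, `b`, `c`, then `X` is
a positive integer multiple of `a b`.

Proof.  Let `w = exp (i pi / 3)` and `u = (a + b w) / c`, a unit complex number which is not a root
of unity.  The weight of the direction `d w ^ k u ^ j`, where `d` is the direction of a side of the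
big triangle, is `(-1) ^ k ((a - b) / c) ^ j`; all other directions have weight zero.  The weight is
odd, so the sum over the tiles of the weighted side lengths is that of the big triangle, `3 X`.
The tiles of one orientation contribute zero, those of the other contribute `3 a b / (a - b)` times
a weight.  Hence `X (a - b)` is `a b` times an integer divided by a power of `(a - b) c`, and
`a b` is coprime to `(a - b) c`.
-/

set_option autoImplicit false

namespace Pool.Agent.Results.MP_9dc182_co.SideDivisible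

open Pool.Agent.Helper549.Tri

/-- The Euclidean plane. -/
abbrev Plane : Type := EuclideanSpace ℝ (Fin 2)

/-- `K` is a closed triangle with side lengths `x`, `y`, `z`: the convex hull of three points whose
mutual distances are `x`, `y`, `z`. -/
def IsTriangle (x y z : ℝ) (K : Set Plane) : Prop :=
  ∃ v : Fin 3 → Plane, dist (v 1) (v 2) = x ∧ dist (v 2) (v 0) = y ∧ dist (v 0) (v 1) = z ∧
    K = convexHull ℝ (Set.range v)

/-- `T` is the union of finitely many triangles with side lengths `a`, `b`, `c` whose interiors are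
pairwise disjoint. -/
def TilesInto (T : Set Plane) (a b c : ℝ) : Prop :=
  ∃ (N : ℕ) (P : Fin N → Set Plane), (∀ i, IsTriangle a b c (P i)) ∧ (⋃ i, P i) = T ∧
    ∀ i j, i ≠ j → Disjoint (interior (P i)) (interior (P j))

/-- Some equilateral triangle of side `X` tiles into triangles with side lengths `a`, `b`, `c`. -/
def Equiconstructible (a b c X : ℝ) : Prop :=
  ∃ T : Set Plane, IsTriangle X X X T ∧ TilesInto T a b c

theorem indep3 (v : Fin 3 → Plane) (h0 : dist (v 1) (v 2) < dist (v 2) (v 0) + dist (v 0) (v 1))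
    (h1 : dist (v 2) (v 0) < dist (v 0) (v 1) + dist (v 1) (v 2))
    (h2 : dist (v 0) (v 1) < dist (v 1) (v 2) + dist (v 2) (v 0)) : AffineIndependent ℝ v := by
  have hv : v = ![v 0, v 1, v 2] := by
    ext k
    fin_cases k <;> rfl
  rw [hv, affineIndependent_iff_not_collinear_set]
  intro hcol
  rcases hcol.wbtw_or_wbtw_or_wbtw with h | h | h
  · have := h.dist_add_dist
    rw [dist_comm (v 0) (v 2)] at this
    linarith
  · have := h.dist_add_dist
    rw [dist_comm (v 1) (v 0)] at this
    linarith
  · have := h.dist_add_dist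
    rw [dist_comm (v 2) (v 1)] at this
    linarith

theorem side_len (v : Fin 3 → Plane) (x y z : ℝ) (h0 : dist (v 1) (v 2) = x)
    (h1 : dist (v 2) (v 0) = y) (h2 : dist (v 0) (v 1) = z) (k : Fin 3) :
    dist (v (k + 1)) (v (k + 2)) = (![x, y, z] : Fin 3 → ℝ) k := by
  fin_cases k
  · exact h0
  · exact h1
  · exact h2

theorem len_eC (v : Fin 3 → Plane) (x y z : ℝ) (h0 : dist (v 1) (v 2) = x)
    (h1 : dist (v 2) (v 0) = y) (h2 : dist (v 0) (v 1) = z) (ρ : Equiv.Perm (Fin 3)) (m : Fin 3) :
    len (fun k => Setup.eC (v (ρ k))) m = (![x, y, z] : Fin 3 → ℝ) (ρ m) := by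
  show ‖Setup.eC (v (ρ (m + 2))) - Setup.eC (v (ρ (m + 1)))‖ = _
  rw [← dist_eq_norm, Setup.eC.dist_map, ← side_len v x y z h0 h1 h2 (ρ m)]
  rcases Setup.perm3 ρ m with ⟨e1, e2⟩ | ⟨e1, e2⟩
  · rw [e1, e2, dist_comm]
  · rw [e1, e2]

/-- **Q1 is true.**  For all positive integers `a`, `b`, `c` with `gcd (a, b) = 1` and
`c ^ 2 = a ^ 2 + b ^ 2 + a b`, every `X > 0` which is equiconstructible by `(a, b, c)` is divisible
by `a b`. -/
theorem result :
    ∀ a b c : ℕ, 0 < a → 0 < b → 0 < c → Nat.gcd a b = 1 → c ^ 2 = a ^ 2 + b ^ 2 + a * b →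
      ∀ X : ℝ, 0 < X → Equiconstructible a b c X → ∃ m : ℕ, 0 < m ∧ X = m * ((a : ℝ) * b) := by
  intro a b c ha hb hc hab h X hX hE
  obtain ⟨T, ⟨A, hA0, hA1, hA2, rfl⟩, N, P, hP, hU, hD⟩ := hE
  choose v hv0 hv1 hv2 hvP using hP
  have haR : (0 : ℝ) < a := by exact_mod_cast ha
  have hbR : (0 : ℝ) < b := by exact_mod_cast hb
  have hcR : (0 : ℝ) < c := by exact_mod_cast hc
  have hR : (c : ℝ) ^ 2 = (a : ℝ) ^ 2 + (b : ℝ) ^ 2 + a * b := by exact_mod_cast h
  have t1 : (c : ℝ) < a + b := by nlinarith
  have t2 : (a : ℝ) < c := by nlinarith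
  have t3 : (b : ℝ) < c := by nlinarith
  have hAI : AffineIndependent ℝ A := by
    apply indep3 <;> rw [hA0, hA1, hA2] <;> linarith
  have hPI : ∀ i, AffineIndependent ℝ (v i) := by
    intro i
    apply indep3 <;> rw [hv0, hv1, hv2] <;> linarith
  obtain ⟨ρ, hρ⟩ := Setup.orient A hAI
  choose r hr using fun i => Setup.orient (v i) (hPI i)
  have hDis : Dis N (fun k => Setup.eC (A (ρ k))) (fun i k => Setup.eC (v i (r i k))) := by
    refine ⟨hρ, hr, ?_, ?_⟩
    · rw [Setup.hull_img A ρ, ← hU, Set.image_iUnion]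
      refine Set.iUnion_congr fun i => ?_
      rw [hvP i]
      exact Setup.hull_img (v i) (r i)
    · intro i j hij
      rw [Setup.hull_img (v i) (r i), Setup.hull_img (v j) (r j)]
      have h1 : ∀ S : Set Plane, interior (Setup.eC '' S) = Setup.eC '' interior S :=
        fun S => (Setup.eC.toHomeomorph.image_interior S).symm
      rw [h1, h1, ← hvP i, ← hvP j]
      exact (Set.disjoint_image_iff Setup.eC.injective).2 (hD i j hij)
  refine Pool.Agent.V11171.TilY.core hDis a b c ha hb hc hab h r (fun i m => ?_) X hX (fun k => ?_)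
  · exact len_eC (v i) a b c (hv0 i) (hv1 i) (hv2 i) (r i) m
  · rw [len_eC A X X X hA0 hA1 hA2 ρ k]
    obtain ⟨m, hm⟩ : ∃ m, m = ρ k := ⟨_, rfl⟩
    rw [← hm]
    fin_cases m <;> rfl

end Pool.Agent.Results.MP_9dc182_co.SideDivisible
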